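import Pool.Agent.Y167.CCMain

/-!
# The cone conjecture for torus quotients: groups which contain a subgroup of finite index

The argument of `Pool.Agent.Y167.core₀`, for groups which contain only a subgroup of finite index of
the group of the affine automorphisms.
-/

set_option autoImplicit false

namespace Q43.CC

open Finset Filter Topology
open Pool.Agent.W594.SYZ2 Pool.Agent.W594.SYZ2.TQ Pool.Agent.TH735.AQ Pool.Agent.TH128.SYZ
open Pool.Agent.Y167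

variable {V E : Type*} [NormedAddCommGroup V] [NormedSpace ℂ V] [FiniteDimensional ℂ V]
  [NormedAddCommGroup E] [NormedSpace ℂ E] [FiniteDimensional ℂ E] {Γ : Subgroup (V ≃ᵃ[ℂ] V)}
  {j : E →ₗ[ℂ] V} {H₀ : V → V → ℂ}

/-- **The cone conjecture for torus quotients**, general form. -/
theorem core₁ (R : Rel Γ j H₀)
    (M : AddSubgroup (N1 Γ j)) {k : ℕ} (hk : 0 < k)
    (hM1 : ∀ x, Integral x → (k : ℝ) • x ∈ M) (hM2 : ∀ x ∈ M, Integral ((k : ℝ) • x))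
    (𝒢 : Subgroup (N1 Γ j ≃ₗ[ℝ] N1 Γ j)) (h𝒢M : ∀ g ∈ 𝒢, ∀ x ∈ M, g x ∈ M)
    (h𝒢N : ∀ g ∈ 𝒢, ∀ x ∈ nefCone Γ j ∩ effCone Γ j, g x ∈ nefCone Γ j ∩ effCone Γ j)
    (T : Finset (N1 Γ j ≃ₗ[ℝ] N1 Γ j))
    (hT : ∀ t ∈ T, (∀ a, Integral a → Integral (t.symm a)) ∧
      ∀ a ∈ nefCone Γ j, t.symm a ∈ nefCone Γ j)
    (h𝒢 : ∀ (m : ℕ) (u : E ≃ₗ[ℂ] E), Pol.IsGood (lattE Γ j) (opE Γ j) m u →
      ∀ f : V ≃ᵃ[ℂ] V, Normalizes Γ f → (∀ v, ∃ e, f v = v + j (u e - e)) →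
        ∀ g : N1 Γ j ≃ₗ[ℝ] N1 Γ j, IsPullback f g → ∃ t ∈ T, ∃ h ∈ 𝒢, g = t * h) :
    ∃ S : Finset (N1 Γ j), (∀ a ∈ S, Integral a) ∧ cone S ⊆ nefCone Γ j ∩ effCone Γ j ∧
      (∀ x, x ∈ nefCone Γ j ∩ effCone Γ j ↔ ∃ g ∈ 𝒢, ∃ y ∈ cone S, g y = x) ∧
      ∀ g ∈ 𝒢, g ≠ 1 → Disjoint (interior (cone S)) (g '' cone S) := by
  classical
  have hkr : (0 : ℝ) < k := by exact_mod_cast hk
  obtain ⟨ξ₀, y₀, Y, D, hy₀⟩ := exists_cdata R M hk hM1 hM2
  obtain ⟨d, b, P⟩ := R.pol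
  obtain ⟨F, hF, hFc⟩ := P.red
  obtain ⟨m₀, hm₀, hauts⟩ := R.exists_aut
  obtain ⟨𝓡, h𝓡f, h𝓡U, h𝓡⟩ := P.fin_idx (finite_opE R) (by
    rintro x ⟨γ, hγ, hx⟩ v hv
    change j (x v) ∈ latt Γ
    rw [hx]
    exact latt_inv γ hγ hv) m₀ hm₀
  -- the generators
  have hcl : ∀ z r, z ∈ F → r ∈ 𝓡 → ∃ (a : N1 Γ j) (m : ℕ), 0 < m ∧ Integral a ∧
      a ∈ nefCone Γ j ∧ ∀ u w, a.1 u w = m * z (r u) (r w) := by
    intro z r hz hr
    obtain ⟨hz1, hz2⟩ := hF z hz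
    have hrU := h𝓡U r hr
    have h1 : Pol.IsInt (lattE Γ j) (opE Γ j) (fun u w => z (r u) (r w)) := by
      refine ⟨⟨?_, ?_, ?_⟩, ?_, ?_⟩
      · intro u v w
        rw [map_add, hz1.herm.add_left]
      · intro c v w
        rw [map_smul, hz1.herm.smul_left]
      · intro v w
        exact hz1.herm.symm _ _
      · intro g hg u w
        rw [hrU.comm g hg, hrU.comm g hg, hz1.inv g hg]
      · intro u hu w hw
        exact hz1.int _ (hrU.map u hu) _ (hrU.map w hw)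
    obtain ⟨m, hm, L, H, hL, h2, -⟩ := R.exists_class h1 (fun v => hz2 (r v))
    obtain ⟨a, ha1, ha2⟩ := exists_int (j := j) (L := L) (h := fun u w => H (j u) (j w))
      ⟨H, hL, fun _ _ => rfl⟩
    refine ⟨a, m, hm, ha2, fun u => ?_, fun u w => ?_⟩
    · rw [ha1]
      change 0 ≤ (H (j u) (j u)).re
      rw [h2]
      have e1 : (m : ℂ) = ((m : ℝ) : ℂ) := by push_cast; rfl
      rw [e1, Complex.re_ofReal_mul]
      exact mul_nonneg (Nat.cast_nonneg _) (hz2 (r u))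
    · rw [ha1]
      exact h2 u w
  choose! af mf hmf haf1 haf2 haf3 using hcl
  let F₂ : Finset (N1 Γ j) := (F ×ˢ h𝓡f.toFinset).image fun p => (k : ℝ) • af p.1 p.2
  have hF₂ : ∀ a ∈ F₂, a ∈ M ∧ a ∈ nefCone Γ j := by
    intro a ha
    obtain ⟨p, hp, rfl⟩ := Finset.mem_image.1 ha
    rw [Finset.mem_product, h𝓡f.mem_toFinset] at hp
    exact ⟨hM1 _ (haf1 _ _ hp.1 hp.2), nef_smul hkr.le (haf2 _ _ hp.1 hp.2)⟩
  -- the covering
  have hcov₀ : ∀ x : N1 Γ j, (∃ t : ℝ, 0 < t ∧ x - t • y₀ ∈ nefCone Γ j) →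
      ∃ g : N1 Γ j ≃ₗ[ℝ] N1 Γ j, (∃ t ∈ T, ∃ h ∈ 𝒢, g = t * h) ∧
      (∀ a, Integral a → Integral (g.symm a)) ∧
      (∀ a ∈ nefCone Γ j, g.symm a ∈ nefCone Γ j) ∧ g x ∈ cone F₂ := by
    rintro x ⟨t, ht, hxt⟩
    obtain ⟨u, hu1, hu2, hu3, c, hc, hx⟩ := hFc x.1 (mem_span_int R x) ⟨t * k, by positivity, fun u => by
      have h1 := hxt u
      change 0 ≤ (x.1 u u - t • y₀.1 u u).re at h1
      have e1 : (k : ℂ) = ((k : ℝ) : ℂ) := by push_cast; rfl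
      rw [Complex.sub_re, Complex.smul_re, hy₀, e1, Complex.re_ofReal_mul, smul_eq_mul] at h1
      linarith⟩
    obtain ⟨r, hr, u', hu', hur⟩ := h𝓡 u ⟨hu1, hu2, hu3⟩
    obtain ⟨f, hf1, hf2, hf3⟩ := hauts u'.symm hu'.inv
    obtain ⟨g, hg1, hg2, hg3, hg4⟩ := exists_pull (j := j) hf1 hf2
    have hg𝒢 : ∃ t ∈ T, ∃ h ∈ 𝒢, g = t * h := by
      refine h𝒢 m₀ _ hu'.inv f hf1 hf3 g ?_
      intro x v w v' w' hv hw
      rw [hf2] at hv hw
      rw [hg1, R.inj hv, R.inj hw]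
    refine ⟨g, hg𝒢, hg4, fun a ha v => ?_, ?_⟩
    · rw [hg2]
      exact ha _
    · have h1 : g x = ∑ z ∈ F, (c z / (k * mf z r)) • ((k : ℝ) • af z r) := by
        apply Subtype.ext
        funext v w
        have h2 : (∑ z ∈ F, (c z / (k * mf z r)) • ((k : ℝ) • af z r) : N1 Γ j).1
            = ∑ z ∈ F, (c z / (k * mf z r)) • ((k : ℝ) • (af z r).1) := by
          rw [Submodule.coe_sum]
          rfl
        rw [hg1, hx, h2]
        simp only [Finset.sum_apply, Pi.smul_apply]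
        refine Finset.sum_congr rfl fun z hz => ?_
        rw [hur, hur, u'.apply_symm_apply, u'.apply_symm_apply, haf3 z r hz hr, Complex.real_smul,
          Complex.real_smul]
        have hm : ((mf z r : ℕ) : ℂ) ≠ 0 := by
          have := hmf z r hz hr
          exact_mod_cast this.ne'
        have hk' : (k : ℂ) ≠ 0 := by exact_mod_cast hk.ne'
        push_cast
        field_simp
      rw [h1]
      refine mem_cone_of_sum F _ _ (fun z hz => ?_) (fun z _ => ?_)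
      · exact Finset.mem_image.2 ⟨(z, r), by
          rw [Finset.mem_product, h𝓡f.mem_toFinset]
          exact ⟨hz, hr⟩, rfl⟩
      · exact div_nonneg (hc z) (by positivity)
  -- interior points are spanned by nef integral classes
  have hint : ∀ x : N1 Γ j, (∃ t : ℝ, 0 < t ∧ x - t • y₀ ∈ nefCone Γ j) →
      x ∈ nefCone Γ j ∩ effCone Γ j := by
    intro x hx
    obtain ⟨g, -, hg1, hg2, hgx⟩ := hcov₀ x hx
    have h1 := cone_image (g.symm : N1 Γ j →ₗ[ℝ] N1 Γ j) hgx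
    have h2 : (g.symm : N1 Γ j →ₗ[ℝ] N1 Γ j) (g x) = x := g.symm_apply_apply x
    rw [h2] at h1
    rw [← mem_Cp_iff R hk hM1 hM2]
    refine ⟨(F₂.image (g.symm : N1 Γ j →ₗ[ℝ] N1 Γ j)).image fun a => ((k : ℝ) * k) • a, ?_, ?_⟩
    · intro a ha
      obtain ⟨a', ha', rfl⟩ := Finset.mem_image.1 ha
      obtain ⟨a, ha0, rfl⟩ := Finset.mem_image.1 ha'
      have h3 : ((k : ℝ) * k) • (g.symm : N1 Γ j →ₗ[ℝ] N1 Γ j) a
          = (k : ℝ) • (g.symm ((k : ℝ) • a)) := by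
        rw [map_smul g.symm, smul_smul]
        rfl
      rw [h3]
      refine ⟨hM1 _ (hg1 _ (hM2 _ (hF₂ a ha0).1)), nef_smul hkr.le (hg2 _ (nef_smul hkr.le ?_))⟩
      exact (hF₂ a ha0).2
    · refine cone_le (fun a ha => ?_) h1
      exact cone_of_scaled (k := (k : ℝ) * k) (by positivity)
        (Finset.mem_image_of_mem (fun a => ((k : ℝ) * k) • a) ha)
  have h𝒢nef : ∀ g ∈ 𝒢, ∀ x ∈ nefCone Γ j, g x ∈ nefCone Γ j := by
    intro g hg x hx u
    have h1 : ∀ ε : ℝ, 0 < ε → 0 ≤ ((g x).1 u u).re + ε * ((g y₀).1 u u).re := by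
      intro ε hε
      have h2 := (h𝒢N g hg _ (hint (x + ε • y₀) ⟨ε, hε, by rwa [add_sub_cancel_right]⟩)).1 u
      rw [map_add, map_smul] at h2
      change 0 ≤ ((g x).1 u u + ε • (g y₀).1 u u).re at h2
      rwa [Complex.add_re, Complex.smul_re, smul_eq_mul] at h2
    by_contra hcon
    push Not at hcon
    set A := ((g x).1 u u).re with hA
    set B := ((g y₀).1 u u).re with hB
    have h2 := h1 (-A / (2 * (|B| + 1))) (by
      have : 0 ≤ |B| := abs_nonneg B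
      exact div_pos (by linarith) (by linarith))
    have h3 : B ≤ |B| := le_abs_self B
    have h4 : (0 : ℝ) < 2 * (|B| + 1) := by positivity
    have h5 : -A / (2 * (|B| + 1)) * B ≤ -A / 2 := by
      rw [div_mul_eq_mul_div, div_le_div_iff₀ h4 (by norm_num)]
      nlinarith
    linarith
  let F₃ : Finset (N1 Γ j) := T.biUnion fun t => F₂.image fun a => (k : ℝ) • t.symm ((k : ℝ) • a)
  have hF₃ : ∀ a ∈ F₃, a ∈ M ∧ a ∈ nefCone Γ j := by
    intro a ha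
    obtain ⟨t, ht, ha⟩ := Finset.mem_biUnion.1 ha
    obtain ⟨b, hb, rfl⟩ := Finset.mem_image.1 ha
    refine ⟨hM1 _ ((hT t ht).1 _ (hM2 _ (hF₂ b hb).1)), nef_smul hkr.le ?_⟩
    exact (hT t ht).2 _ (nef_smul hkr.le (hF₂ b hb).2)
  have hcov : ∀ x : N1 Γ j, (∃ t : ℝ, 0 < t ∧ x - t • y₀ ∈ nefCone Γ j) →
      ∃ g ∈ 𝒢, g x ∈ cone F₃ := by
    intro x hx
    obtain ⟨g, ⟨t, ht, h, hh, rfl⟩, -, -, hgx⟩ := hcov₀ x hx
    refine ⟨h, hh, ?_⟩
    have h1 := cone_image (t.symm : N1 Γ j →ₗ[ℝ] N1 Γ j) hgx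
    have h2 : (t.symm : N1 Γ j →ₗ[ℝ] N1 Γ j) ((t * h) x) = h x := t.symm_apply_apply (h x)
    rw [h2] at h1
    refine cone_le (fun a ha => ?_) h1
    obtain ⟨b, hb, rfl⟩ := Finset.mem_image.1 ha
    refine cone_of_scaled (k := (k : ℝ) * k) (by positivity) ?_
    have h3 : ((k : ℝ) * k) • (t.symm : N1 Γ j →ₗ[ℝ] N1 Γ j) b
        = (k : ℝ) • t.symm ((k : ℝ) • b) := by
      rw [map_smul t.symm, smul_smul]
      rfl
    rw [h3]
    exact Finset.mem_biUnion.2 ⟨t, ht, Finset.mem_image_of_mem _ hb⟩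
  obtain ⟨S, hS1, hS2, hS3⟩ := D.domain 𝒢 h𝒢M h𝒢nef F₃ hF₃ hcov
  -- rescale
  have hcone : ∀ x, x ∈ cone (S.image fun a => (k : ℝ) • a) ↔ x ∈ cone S := by
    intro x
    constructor
    · refine fun h => cone_le (fun a ha => ?_) h
      obtain ⟨a', ha', rfl⟩ := Finset.mem_image.1 ha
      exact cone_smul (mem_cone_self ha') hkr.le
    · refine fun h => cone_le (fun a ha => ?_) h
      exact cone_of_scaled hkr (Finset.mem_image_of_mem (fun a => (k : ℝ) • a) ha)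
  have hcone' : cone (S.image fun a => (k : ℝ) • a) = cone S := Set.ext hcone
  refine ⟨S.image fun a => (k : ℝ) • a, ?_, ?_, ?_, ?_⟩
  · intro a ha
    obtain ⟨a', ha', rfl⟩ := Finset.mem_image.1 ha
    exact hM2 _ (hS1 a' ha').1
  · rw [hcone']
    intro x hx
    rw [← mem_Cp_iff R hk hM1 hM2]
    exact ⟨S, hS1, hx⟩
  · intro x
    rw [← mem_Cp_iff R hk hM1 hM2, hS2, hcone']
    constructor
    · rintro ⟨g, hg, hgx⟩
      exact ⟨g⁻¹, 𝒢.inv_mem hg, g x, hgx, g.symm_apply_apply x⟩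
    · rintro ⟨g, hg, y, hy, rfl⟩
      refine ⟨g⁻¹, 𝒢.inv_mem hg, ?_⟩
      have : (g⁻¹ : N1 Γ j ≃ₗ[ℝ] N1 Γ j) (g y) = y := g.symm_apply_apply y
      rwa [this]
  · intro g hg hg1
    rw [hcone']
    obtain ⟨φ, hφ0, hφ1, hφ2⟩ := hS3 g hg hg1
    rw [Set.disjoint_left]
    rintro x hx ⟨y, hy, rfl⟩
    have h1 := hφ2 y hy
    obtain ⟨w, hw⟩ : ∃ w, 0 < φ w := by
      by_contra hcon
      push Not at hcon
      apply hφ0
      ext w
      have e1 := hcon w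
      have e2 := hcon (-w)
      rw [map_neg] at e2
      change φ w = 0
      linarith
    have hcont : Continuous fun t : ℝ => g y - t • w := by fun_prop
    have hmem : ∀ᶠ t : ℝ in 𝓝 0, g y - t • w ∈ interior (cone S) := by
      apply hcont.continuousAt.eventually_mem
      rw [zero_smul, sub_zero]
      exact isOpen_interior.mem_nhds hx
    obtain ⟨ε, hε, hball⟩ := Metric.eventually_nhds_iff.1 hmem
    have h2 := interior_subset (hball (y := ε / 2) (by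
      rw [Real.dist_eq, sub_zero, abs_of_pos (by linarith)]
      linarith))
    have h3 := hφ1 _ h2
    rw [map_sub, map_smul, smul_eq_mul] at h3
    have h4 : 0 < ε / 2 * φ w := by positivity
    linarith


end Q43.CC
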