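import Pool.Agent.Y167.Stm

/-!
# Movable cones on quotients of complex tori: definitions

`X = V / Γ` is a quotient of a complex torus by a finite group and `X → Z = W / Γ'` a fibration given
by the linear map `π : V → W`.
-/

set_option autoImplicit false

namespace Q43.CC

open Filter Topology
open Pool.Agent.W594.SYZ2 Pool.Agent.TH735.AQ
open Pool.Agent.Y167 (AffGrp EffDiv IsClass cone Normalizes)
open Pool.Agent.Y167.CC

variable {V W E : Type*} [NormedAddCommGroup V] [NormedSpace ℂ V] [NormedAddCommGroup W]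
  [NormedSpace ℂ W] [NormedAddCommGroup E] [NormedSpace ℂ E]

/-- `s` is a section of `L` over the preimage of the open subset `U / Γ'` of `Z` (here `U` is an open
subset of `W`, invariant under `Γ'`): a holomorphic function on `π⁻¹ U` with `s (γ v) = e_γ(v) s(v)`. -/
structure IsSectionOver {Γ : AffGrp V} (L : LineBundle Γ) (π : V →ₗ[ℂ] W) (U : Set W)
    (s : V → ℂ) : Prop where
  holo : DifferentiableOn ℂ s (π ⁻¹' U)
  eq : ∀ (γ : Γ) (v : V), π v ∈ U → s ((γ : V ≃ᵃ[ℂ] V) v) = L.e γ v * s v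

/-- The base locus of `L` relative to `Z` has codimension at least `2`: no holomorphic germ `h` at a
point `v` of `V`, with `h v = 0`, divides all local sections of `L`. Local sections are sections
over the preimages of neighbourhoods of the image of `v` in `Z`. (A holomorphic germ divides the
zero germ, so that there are nonzero local sections.) -/
def IsMovable {Γ : AffGrp V} (Γ' : AffGrp W) (π : V →ₗ[ℂ] W) (L : LineBundle Γ) : Prop :=
  ∀ (v : V) (h : V → ℂ), AnalyticAt ℂ h v → h v = 0 →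
    ∃ (U : Set W) (s : V → ℂ), IsOpen U ∧ π v ∈ U ∧ (∀ δ ∈ Γ', ∀ w ∈ U, δ w ∈ U) ∧
      IsSectionOver L π U s ∧
        ¬ ∃ g : V → ℂ, AnalyticAt ℂ g v ∧ s =ᶠ[𝓝 v] fun x => h x * g x

/-- The classes of the line bundles whose base locus relative to `Z` has codimension at least `2`. -/
def movable (Γ : AffGrp V) (Γ' : AffGrp W) (π : V →ₗ[ℂ] W) (j : E →ₗ[ℂ] V) : Set (N1 Γ j) :=
  {x | ∃ L : LineBundle Γ, IsClass j L (form x) ∧ IsMovable Γ' π L}

/-- The closed movable cone: the closure of the convex cone spanned by the classes of the line bundles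
whose base locus relative to `Z` has codimension at least `2`. -/
def movCone (Γ : AffGrp V) (Γ' : AffGrp W) (π : V →ₗ[ℂ] W) (j : E →ₗ[ℂ] V) : Set (N1 Γ j) :=
  closure {x | ∃ S : Finset (N1 Γ j), ↑S ⊆ movable Γ Γ' π j ∧ x ∈ cone S}

/-- The effective movable cone `M^e(X/Z)`. -/
def movEff (Γ : AffGrp V) (Γ' : AffGrp W) (π : V →ₗ[ℂ] W) (j : E →ₗ[ℂ] V) : Set (N1 Γ j) :=
  movCone Γ Γ' π j ∩ effCone Γ j

/-- The affine transformation `f` of `V` induces an automorphism over `Z = W / Γ'`. -/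
def Over (Γ' : AffGrp W) (π : V →ₗ[ℂ] W) (f : V ≃ᵃ[ℂ] V) : Prop :=
  ∃ δ ∈ Γ', ∀ v, π (f v) = δ (π v)

/-- The group of linear automorphisms of `N^1(X/Z)` generated by the pullbacks `f^*` by the
automorphisms of `X` over `Z` which are induced by affine transformations `f` of `V` with the
property `P`. -/
noncomputable def affGrp (Γ : AffGrp V) (Γ' : AffGrp W) (π : V →ₗ[ℂ] W) (j : E →ₗ[ℂ] V)
    (P : (V ≃ᵃ[ℂ] V) → Prop) : LinGrp (N1 Γ j) :=
  Subgroup.closure {g | ∃ f : V ≃ᵃ[ℂ] V, Normalizes Γ f ∧ Over Γ' π f ∧ P f ∧ IsPullback f g}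

/-- The group `𝒢` preserves a lattice `M` in `N^1(X/Z)` which is commensurable with the lattice of
the integral classes (for example the lattice of the classes of Weil divisors). -/
def PreservesLattice {Γ : AffGrp V} {j : E →ₗ[ℂ] V} (𝒢 : LinGrp (N1 Γ j)) : Prop :=
  ∃ (M : AddSubgroup (N1 Γ j)) (k : ℕ), 0 < k ∧ (∀ x ∈ integral Γ j, (k : ℝ) • x ∈ M) ∧
    (∀ x ∈ M, (k : ℝ) • x ∈ integral Γ j) ∧ Preserves 𝒢 M

/-! ### The absolute case -/

/-- The space `N^1(X)`. -/
abbrev NS {V : Type*} [NormedAddCommGroup V] [NormedSpace ℂ V] (Γ : AffGrp V) : Type _ :=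
  N1 Γ (LinearMap.id : V →ₗ[ℂ] V)

/-- The line bundle `L` is movable: its base locus has codimension at least `2`, that is, no
holomorphic germ `h` at a point `v` of `V`, with `h v = 0`, divides all sections of `L`. -/
def IsMovableAbs {Γ : AffGrp V} (L : LineBundle Γ) : Prop :=
  ∀ (v : V) (h : V → ℂ), AnalyticAt ℂ h v → h v = 0 →
    ∃ s : V → ℂ, L.IsSection s ∧ ¬ ∃ g : V → ℂ, AnalyticAt ℂ g v ∧ s =ᶠ[𝓝 v] fun x => h x * g x

/-- The classes of the movable line bundles. -/
def movableAbs (Γ : AffGrp V) : Set (NS Γ) :=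
  {x | ∃ L : LineBundle Γ, IsClass (LinearMap.id : V →ₗ[ℂ] V) L (form x) ∧ IsMovableAbs L}

/-- The cone `Mov^e(X)`: the intersection of the effective cone with the closure of the convex cone
spanned by the classes of movable line bundles. -/
def movEffAbs (Γ : AffGrp V) : Set (NS Γ) :=
  closure {x | ∃ S : Finset (NS Γ), ↑S ⊆ movableAbs Γ ∧ x ∈ cone S} ∩
    effCone Γ (LinearMap.id : V →ₗ[ℂ] V)

/-- The cone `Nef^e(X)` of nef and effective classes. -/
def nefEffAbs (Γ : AffGrp V) : Set (NS Γ) :=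
  nefCone Γ (LinearMap.id : V →ₗ[ℂ] V) ∩ effCone Γ (LinearMap.id : V →ₗ[ℂ] V)

/-- The group of linear automorphisms of `N^1(X)` generated by the pullbacks `f^*` by the
automorphisms of `X` which are induced by affine transformations `f` of `V` with the property `P`. -/
noncomputable def affGrpAbs (Γ : AffGrp V) (P : (V ≃ᵃ[ℂ] V) → Prop) : LinGrp (NS Γ) :=
  Subgroup.closure {g | ∃ f : V ≃ᵃ[ℂ] V, Normalizes Γ f ∧ P f ∧ IsPullback f g}

end Q43.CC
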