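import Pool.Agent.Q43.CC.Core
import Pool.Agent.Q43.CC.Defs

/-!
# Finite index and the movable cone
-/

set_option autoImplicit false

namespace Q43.CC

open Finset Filter Topology
open Pool.Agent.W594.SYZ2 Pool.Agent.W594.SYZ2.TQ Pool.Agent.TH735.AQ Pool.Agent.TH128.SYZ
open Pool.Agent.Y167

variable {V E : Type*} [NormedAddCommGroup V] [NormedSpace ℂ V] [FiniteDimensional ℂ V]
  [NormedAddCommGroup E] [NormedSpace ℂ E] [FiniteDimensional ℂ E] {Γ : Subgroup (V ≃ᵃ[ℂ] V)}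
  {j : E →ₗ[ℂ] V} {H₀ : V → V → ℂ}

/-- Finitely many left cosets. -/
theorem exists_transversal {G : Type*} [Group G] (𝒢 𝒜 : Subgroup G) (h : 𝒢.relIndex 𝒜 ≠ 0) :
    ∃ T : Set G, T.Finite ∧ T ⊆ 𝒜 ∧ ∀ g ∈ 𝒜, ∃ t ∈ T, ∃ h ∈ 𝒢, g = t * h := by
  have h1 : (𝒢.subgroupOf 𝒜).index ≠ 0 := h
  have : (𝒢.subgroupOf 𝒜).FiniteIndex := ⟨h1⟩
  have : Finite (𝒜 ⧸ 𝒢.subgroupOf 𝒜) := inferInstance
  refine ⟨Set.range fun q : 𝒜 ⧸ 𝒢.subgroupOf 𝒜 => (q.out : G), Set.finite_range _, ?_, ?_⟩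
  · rintro _ ⟨q, rfl⟩
    exact q.out.2
  · intro g hg
    refine ⟨_, ⟨(QuotientGroup.mk (⟨g, hg⟩ : 𝒜) : 𝒜 ⧸ 𝒢.subgroupOf 𝒜), rfl⟩, ?_⟩
    set q : 𝒜 ⧸ 𝒢.subgroupOf 𝒜 := QuotientGroup.mk (⟨g, hg⟩ : 𝒜) with hq
    have h2 : (q.out)⁻¹ * ⟨g, hg⟩ ∈ 𝒢.subgroupOf 𝒜 := by
      rw [← QuotientGroup.eq]
      exact Quotient.out_eq q
    exact ⟨_, Subgroup.mem_subgroupOf.1 h2, by simp⟩

/-- The transformation preserves the lattice of integral classes and the nef cone. -/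
def Nice (t : Pool.Agent.Y167.N1 Γ j ≃ₗ[ℝ] Pool.Agent.Y167.N1 Γ j) : Prop :=
  (∀ a, Integral a → Integral (t a)) ∧ (∀ a, Integral a → Integral (t.symm a)) ∧
    (∀ a ∈ nefCone Γ j, t a ∈ nefCone Γ j) ∧ ∀ a ∈ nefCone Γ j, t.symm a ∈ nefCone Γ j

omit [FiniteDimensional ℂ V] [FiniteDimensional ℂ E] in
theorem Nice.one : Nice (1 : Pool.Agent.Y167.N1 Γ j ≃ₗ[ℝ] Pool.Agent.Y167.N1 Γ j) :=
  ⟨fun _ h => h, fun _ h => h, fun _ h => h, fun _ h => h⟩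

omit [FiniteDimensional ℂ V] [FiniteDimensional ℂ E] in
theorem Nice.mul {s t : Pool.Agent.Y167.N1 Γ j ≃ₗ[ℝ] Pool.Agent.Y167.N1 Γ j} (hs : Nice s)
    (ht : Nice t) : Nice (s * t) :=
  ⟨fun a h => hs.1 _ (ht.1 a h), fun a h => ht.2.1 _ (hs.2.1 a h),
    fun a h => hs.2.2.1 _ (ht.2.2.1 a h), fun a h => ht.2.2.2 _ (hs.2.2.2 a h)⟩

omit [FiniteDimensional ℂ V] [FiniteDimensional ℂ E] in
theorem Nice.inv {s : Pool.Agent.Y167.N1 Γ j ≃ₗ[ℝ] Pool.Agent.Y167.N1 Γ j} (hs : Nice s) :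
    Nice s⁻¹ :=
  ⟨hs.2.1, hs.1, hs.2.2.2, hs.2.2.1⟩

omit [FiniteDimensional ℂ E] in
theorem nice_of_pull {f : V ≃ᵃ[ℂ] V} (hf : Normalizes Γ f) {u : E ≃ₗ[ℂ] E}
    (hfu : ∀ e, f.linear (j e) = j (u e))
    {g : Pool.Agent.Y167.N1 Γ j ≃ₗ[ℝ] Pool.Agent.Y167.N1 Γ j} (hg : IsPullback f g) : Nice g := by
  obtain ⟨g', h1, h2, h3, h4⟩ := exists_pull (j := j) hf hfu
  have h5 : g = g' := by
    apply LinearEquiv.ext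
    intro x
    apply Subtype.ext
    funext v w
    rw [h1]
    exact hg x v w (u v) (u w) (hfu v).symm (hfu w).symm
  subst h5
  refine ⟨h3, h4, fun a ha v => ?_, fun a ha v => ?_⟩
  · rw [h1]; exact ha _
  · rw [h2]; exact ha _

/-- **The cone conjecture for torus quotients**, for groups which contain a subgroup of finite index of
the group of the affine automorphisms. -/
theorem core₂ (R : Rel Γ j H₀)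
    (M : AddSubgroup (Pool.Agent.Y167.N1 Γ j)) {k : ℕ} (hk : 0 < k)
    (hM1 : ∀ x, Integral x → (k : ℝ) • x ∈ M) (hM2 : ∀ x ∈ M, Integral ((k : ℝ) • x))
    (𝒢 𝒜 : Subgroup (Pool.Agent.Y167.N1 Γ j ≃ₗ[ℝ] Pool.Agent.Y167.N1 Γ j))
    (h𝒢M : ∀ g ∈ 𝒢, ∀ x ∈ M, g x ∈ M)
    (h𝒢N : ∀ g ∈ 𝒢, ∀ x ∈ nefCone Γ j ∩ effCone Γ j, g x ∈ nefCone Γ j ∩ effCone Γ j)
    (h𝒜 : ∀ t ∈ 𝒜, Nice t) (hfin : 𝒢.relIndex 𝒜 ≠ 0)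
    (hgood : ∀ (m : ℕ) (u : E ≃ₗ[ℂ] E), Pol.IsGood (lattE Γ j) (opE Γ j) m u →
      ∀ f : V ≃ᵃ[ℂ] V, Normalizes Γ f → (∀ v, ∃ e, f v = v + j (u e - e)) →
        ∀ g : Pool.Agent.Y167.N1 Γ j ≃ₗ[ℝ] Pool.Agent.Y167.N1 Γ j, IsPullback f g → g ∈ 𝒜) :
    ∃ S : Finset (Pool.Agent.Y167.N1 Γ j), (∀ a ∈ S, Integral a) ∧
      cone S ⊆ nefCone Γ j ∩ effCone Γ j ∧
      (∀ x, x ∈ nefCone Γ j ∩ effCone Γ j ↔ ∃ g ∈ 𝒢, ∃ y ∈ cone S, g y = x) ∧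
      ∀ g ∈ 𝒢, g ≠ 1 → Disjoint (interior (cone S)) (g '' cone S) := by
  obtain ⟨T, hTf, hT𝒜, hT⟩ := exists_transversal 𝒢 𝒜 hfin
  refine core₁ R M hk hM1 hM2 𝒢 h𝒢M h𝒢N hTf.toFinset (fun t ht => ?_)
    (fun m u hu f hf hf3 g hg => ?_)
  · have h1 := h𝒜 t (hT𝒜 (hTf.mem_toFinset.1 ht))
    exact ⟨h1.2.1, h1.2.2.2⟩
  · obtain ⟨t, ht, h, hh, he⟩ := hT g (hgood m u hu f hf hf3 g hg)
    exact ⟨t, hTf.mem_toFinset.2 ht, h, hh, he⟩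

end Q43.CC
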