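import Pool.Agent.Q43.CC.Grp

/-!
# The movable cone conjecture for torus quotients
-/

set_option autoImplicit false

namespace Q43.CC

open Filter Topology
open Pool.Agent.W594.SYZ2 Pool.Agent.W594.SYZ2.TQ Pool.Agent.TH735.AQ
open Pool.Agent.Y167 (AffGrp EffDiv NumTrivial Normalizes IsClass cone Rel rel_abs rel_of_emb
  cone_mono cone_add cone_smul delta_inv)
open Pool.Agent.Y167.CC

variable {V W E : Type*} [NormedAddCommGroup V] [NormedSpace ℂ V] [FiniteDimensional ℂ V]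
  [NormedAddCommGroup W] [NormedSpace ℂ W]
  [NormedAddCommGroup E] [NormedSpace ℂ E] [FiniteDimensional ℂ E] {Γ : AffGrp V} {Γ' : AffGrp W}
  {π : V →ₗ[ℂ] W} {j : E →ₗ[ℂ] V} {H₀ : V → V → ℂ}

omit [FiniteDimensional ℂ V] in
/-- A base point free line bundle is movable. -/
theorem movable_of_bpf {L : LineBundle Γ} (h : ∀ v, ∃ s, L.IsSection s ∧ s v ≠ 0) :
    IsMovable Γ' π L := by
  intro v h1 _ h0
  obtain ⟨s, hs, hsv⟩ := h v
  refine ⟨Set.univ, s, isOpen_univ, trivial, fun _ _ _ _ => trivial,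
    ⟨hs.holo.differentiableOn, fun γ v _ => hs.eq γ v⟩, ?_⟩
  rintro ⟨g, _, hg⟩
  apply hsv
  have h2 : s v = h1 v * g v := hg.self_of_nhds
  rw [h2, h0, zero_mul]

/-- All effective classes on a torus quotient are movable and nef. -/
theorem movEff_eq (R : Rel Γ j H₀) :
    movEff Γ Γ' π j = effCone Γ j ∧ nefCone Γ j ∩ effCone Γ j = effCone Γ j := by
  have h1 : effCone Γ j ⊆ nefCone Γ j := eff_nef R.tq
  have h2 : nefCone Γ j ∩ effCone Γ j = effCone Γ j := Set.inter_eq_right.2 h1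
  refine ⟨Set.inter_eq_right.2 ?_, h2⟩
  rw [← h2]
  refine Set.Subset.trans (nefEff_sub_span R (P := movable Γ Γ' π j) ?_) subset_closure
  intro x L hL hs
  exact ⟨L, hL, movable_of_bpf hs⟩

omit [FiniteDimensional ℂ V] [NormedAddCommGroup E] [NormedSpace ℂ E] [FiniteDimensional ℂ E] in
theorem affGrp_le {E : Type*} [NormedAddCommGroup E] [NormedSpace ℂ E] {j : E →ₗ[ℂ] V}
    {P : (V ≃ᵃ[ℂ] V) → Prop} {𝒢 : LinGrp (N1 Γ j)}
    (h : ∀ f : V ≃ᵃ[ℂ] V, Normalizes Γ f → Over Γ' π f → P f → ∀ g, IsPullback f g → g ∈ 𝒢) :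
    affGrp Γ Γ' π j P ≤ 𝒢 := by
  rw [affGrp, Subgroup.closure_le]
  rintro g ⟨f, h1, h2, h3, h4⟩
  exact h f h1 h2 h3 g h4

/-- The operator on `E` induced by an affine transformation over `Z`. -/
theorem exists_u (hj : Function.Injective j) (hjr : LinearMap.range j = LinearMap.ker π)
    {f : V ≃ᵃ[ℂ] V} (hf : Over Γ' π f) : ∃ u : E ≃ₗ[ℂ] E, ∀ e, f.linear (j e) = j (u e) := by
  obtain ⟨δ, hδ, h⟩ := hf
  have h1 : ∀ e, ∃ e', j e' = f.linear (j e) := by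
    intro e
    have h2 : f.linear (j e) ∈ LinearMap.ker π := by
      have h3 : π (j e) = 0 := by
        have : j e ∈ LinearMap.ker π := hjr ▸ LinearMap.mem_range_self j e
        exact this
      have h4 : f (j e) = f.linear (j e) + f 0 := by
        have := f.map_vadd 0 (j e)
        simpa using this
      rw [LinearMap.mem_ker]
      have h5 : π (f (j e)) = π (f 0) := by rw [h, h, h3, π.map_zero]
      rw [h4, map_add] at h5
      simpa using h5
    rw [← hjr] at h2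
    exact h2
  choose u hu using h1
  let ul : E →ₗ[ℂ] E :=
    { toFun := u
      map_add' := fun x y => hj (by rw [hu, map_add, map_add, map_add, hu, hu])
      map_smul' := fun c x => hj (by
        rw [hu, map_smul, map_smul, RingHom.id_apply, map_smul, hu]) }
  have hinj : Function.Injective ul := by
    intro x y hxy
    apply hj
    apply f.linear.injective
    rw [← hu, ← hu]
    exact congrArg j hxy
  exact ⟨LinearEquiv.ofInjectiveEndo ul hinj, fun e => (hu e).symm⟩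

/-- The relative movable cone conjecture for pairs on torus quotients. -/
theorem rel_main (R : Rel Γ j H₀) (hjr : LinearMap.range j = LinearMap.ker π)
    {ι : Type*} [Fintype ι] (Δ : EffDiv Γ ι) (hΔ : NumTrivial Δ j)
    (𝒢 : LinGrp (N1 Γ j)) (hM : PreservesLattice 𝒢) (hN : Preserves 𝒢 (movEff Γ Γ' π j))
    (hfin : 𝒢.relIndex (affGrp Γ Γ' π j fun f => ∀ v, Δ.mul (f v) = Δ.mul v) ≠ 0) :
    ∃ S : Finset (N1 Γ j), ↑S ⊆ integral Γ j ∧ cone S ⊆ movEff Γ Γ' π j ∧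
      IsFundDomain 𝒢 (movEff Γ Γ' π j) (cone S) := by
  obtain ⟨e1, e2⟩ := movEff_eq (Γ' := Γ') (π := π) R
  rw [e1, ← e2] at hN ⊢
  obtain ⟨M, k, hk, hM1, hM2, hM3⟩ := hM
  obtain ⟨S, h1, h2, h3, h4⟩ := core₂ R M hk hM1 hM2 𝒢
    (affGrp Γ Γ' π j fun f => ∀ v, Δ.mul (f v) = Δ.mul v) hM3 hN (by
      intro t ht
      refine Subgroup.closure_induction ?_ Nice.one (fun x y _ _ hx hy => hx.mul hy)
        (fun x _ hx => hx.inv) ht
      rintro g ⟨f, hf1, hf2, -, hf4⟩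
      obtain ⟨u, hu⟩ := exists_u R.inj hjr hf2
      exact nice_of_pull hf1 hu hf4) hfin (by
      intro m u hu f hf hf3 g hg
      refine Subgroup.subset_closure ⟨f, hf, ⟨1, Γ'.one_mem, fun v => ?_⟩,
        delta_inv R Δ hΔ hu hf3, hg⟩
      obtain ⟨e, he⟩ := hf3 v
      have h5 : π (j (u e - e)) = 0 := by
        have h6 : j (u e - e) ∈ LinearMap.ker π := hjr ▸ LinearMap.mem_range_self j _
        exact h6
      rw [he, map_add, h5, add_zero]
      rfl)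
  refine ⟨S, h1, h2, ?_, fun g hg hg1 => Set.disjoint_iff_inter_eq_empty.1 (h4 g hg hg1)⟩
  apply Set.ext
  intro x
  rw [Set.mem_iUnion₂]
  constructor
  · intro hx
    obtain ⟨g, hg, y, hy, h5⟩ := (h3 x).1 hx
    exact ⟨g, hg, y, hy, h5⟩
  · rintro ⟨g, hg, y, hy, h5⟩
    exact (h3 x).2 ⟨g, hg, y, hy, h5⟩

/-! ### The absolute case -/

/-- A base point free line bundle is movable. -/
theorem movableAbs_of_bpf {V : Type*} [NormedAddCommGroup V] [NormedSpace ℂ V] {Γ : AffGrp V}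
    {L : LineBundle Γ} (h : ∀ v, ∃ s, L.IsSection s ∧ s v ≠ 0) : IsMovableAbs L := by
  intro v h1 _ h0
  obtain ⟨s, hs, hsv⟩ := h v
  refine ⟨s, hs, ?_⟩
  rintro ⟨g, _, hg⟩
  apply hsv
  have h2 : s v = h1 v * g v := hg.self_of_nhds
  rw [h2, h0, zero_mul]

theorem movEffAbs_eq {V : Type*} [NormedAddCommGroup V] [NormedSpace ℂ V] [FiniteDimensional ℂ V]
    {Γ : AffGrp V} {H₀ : V → V → ℂ} (R : Rel Γ (LinearMap.id : V →ₗ[ℂ] V) H₀) :
    movEffAbs Γ = nefEffAbs Γ ∧ nefEffAbs Γ = effCone Γ LinearMap.id := by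
  have h1 : effCone Γ (LinearMap.id : V →ₗ[ℂ] V) ⊆ nefCone Γ LinearMap.id := eff_nef R.tq
  have h2 : nefEffAbs Γ = effCone Γ LinearMap.id := Set.inter_eq_right.2 h1
  refine ⟨?_, h2⟩
  rw [h2, movEffAbs, Set.inter_eq_right, ← h2]
  refine Set.Subset.trans (nefEff_sub_span R (P := movableAbs Γ) ?_) subset_closure
  intro x L hL hs
  exact ⟨L, hL, movableAbs_of_bpf hs⟩

/-- The two cone conjectures for a torus quotient. -/
theorem abs_main {V : Type*} [NormedAddCommGroup V] [NormedSpace ℂ V] [FiniteDimensional ℂ V]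
    {Γ : AffGrp V} {H₀ : V → V → ℂ} (R : Rel Γ (LinearMap.id : V →ₗ[ℂ] V) H₀)
    (P : (V ≃ᵃ[ℂ] V) → Prop)
    (hP : ∀ (m : ℕ) (u : V ≃ₗ[ℂ] V), Pool.Agent.Y167.Pol.IsGood
      (Pool.Agent.Y167.lattE Γ (LinearMap.id : V →ₗ[ℂ] V))
      (Pool.Agent.Y167.opE Γ (LinearMap.id : V →ₗ[ℂ] V)) m u →
      ∀ f : V ≃ᵃ[ℂ] V, (∀ v, ∃ e, f v = v + (LinearMap.id : V →ₗ[ℂ] V) (u e - e)) → P f)
    (𝒢 : LinGrp (NS Γ)) (hM : PreservesLattice 𝒢)
    (hN : Preserves 𝒢 (nefEffAbs Γ) ∨ Preserves 𝒢 (movEffAbs Γ))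
    (hfin : 𝒢.relIndex (affGrpAbs Γ P) ≠ 0) :
    ∃ S : Finset (NS Γ), ↑S ⊆ integral Γ (LinearMap.id : V →ₗ[ℂ] V) ∧ cone S ⊆ nefEffAbs Γ ∧
      IsFundDomain 𝒢 (nefEffAbs Γ) (cone S) := by
  rw [(movEffAbs_eq R).1, or_self] at hN
  obtain ⟨M, k, hk, hM1, hM2, hM3⟩ := hM
  obtain ⟨S, h1, h2, h3, h4⟩ := core₂ R M hk hM1 hM2 𝒢 (affGrpAbs Γ P) hM3 hN (by
      intro t ht
      refine Subgroup.closure_induction ?_ Nice.one (fun x y _ _ hx hy => hx.mul hy)
        (fun x _ hx => hx.inv) ht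
      rintro g ⟨f, hf1, -, hf4⟩
      exact nice_of_pull (j := (LinearMap.id : V →ₗ[ℂ] V)) hf1 (u := f.linear) (fun e => rfl)
        (g := g) hf4) hfin (by
      intro m u hu f hf hf3 g hg
      exact Subgroup.subset_closure ⟨f, hf, hP m u hu f hf3, hg⟩)
  refine ⟨S, h1, h2, ?_, fun g hg hg1 => Set.disjoint_iff_inter_eq_empty.1 (h4 g hg hg1)⟩
  apply Set.ext
  intro x
  rw [Set.mem_iUnion₂]
  constructor
  · intro hx
    obtain ⟨g, hg, y, hy, h5⟩ := (h3 x).1 hx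
    exact ⟨g, hg, y, hy, h5⟩
  · rintro ⟨g, hg, y, hy, h5⟩
    exact (h3 x).2 ⟨g, hg, y, hy, h5⟩

end Q43.CC
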